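import Mathlib
import Pool.Agent.MP4d31e4.Finite

open MeasureTheory ProbabilityTheory Filter Pool.Agent.MP4d31e4
open scoped ENNReal NNReal Topology

namespace Pool.Agent.Results.MP_4d31e4_pr.FrogSusceptibility

/-- **Main theorem (disproof of Q1, for every sequence of graphs and at every level).**
Let `G n` be finite connected graphs with `|V n| → ∞` (vertex-transitivity is not needed), `o n`
any start vertices, and `k ≥ 1`. There are densities `lam n > 0` with `lam n * |V n| → ∞` such that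
`E[S] < ∞` for all `n`, and for all large `n` the susceptibility `S` is `≤ k` with probability
exactly `1/2` and `> k` with probability exactly `1/2`; consequently for every real number `a`,
in particular for `a = E[S]`, one has `P(|S / a - 1| ≥ 1 / (2 k + 1)) ≥ 1 / 2`. -/
theorem result (V : ℕ → Type*) [∀ n, Fintype (V n)] [∀ n, MeasurableSpace (V n)]
    [∀ n, DiscreteMeasurableSpace (V n)] (G : ∀ n, SimpleGraph (V n)) (o : ∀ n, V n)
    (hconn : ∀ n, (G n).Connected)
    (hV : Tendsto (fun n => Fintype.card (V n)) atTop atTop) (k : ℕ) (hk : 1 ≤ k) :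
    ∃ lam : ℕ → ℝ≥0, (∀ n, 0 < lam n) ∧
      Tendsto (fun n => (lam n : ℝ) * Fintype.card (V n)) atTop atTop ∧
      (∀ n, expect (frogLaw (G n) (o n) (lam n)) susc < ⊤) ∧
      ∀ᶠ n in atTop,
        frogLaw (G n) (o n) (lam n) {ω | susc ω ≤ k} = 1 / 2 ∧
        frogLaw (G n) (o n) (lam n) {ω | (k : ℕ∞) < susc ω} = 1 / 2 ∧
        ∀ a : ℝ, 1 / 2 ≤
          frogLaw (G n) (o n) (lam n) {ω | Deviates (susc ω) a (1 / (2 * k + 1))} := by
  have hex : ∀ n, ∃ lam : ℝ≥0, 0 < lam ∧ (k + 1 < Fintype.card (V n) →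
      (Fintype.card (V n) - (k + 1) : ℝ) ≤ 2 * (k + 1) * (lam * Fintype.card (V n)) ∧
      frogLaw (G n) (o n) lam {ω | susc ω ≤ k} = 1 / 2 ∧
      frogLaw (G n) (o n) lam {ω | (k : ℕ∞) < susc ω} = 1 / 2) := by
    intro n
    by_cases h : k + 1 < Fintype.card (V n)
    · obtain ⟨lam, h0, h1, h2, h3⟩ := exists_density (G n) (o n) (hconn n) k hk h
      exact ⟨lam, h0, fun _ => ⟨h1, h2, h3⟩⟩
    · exact ⟨1, one_pos, fun h' => absurd h' h⟩
  choose lam hpos hlam using hex
  have hev : ∀ᶠ n in atTop, k + 1 < Fintype.card (V n) := hV.eventually_gt_atTop (k + 1)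
  refine ⟨lam, hpos, ?_, fun n => expect_susc_lt_top (G n) (hconn n) (o n) (lam n), ?_⟩
  · have h1 : Tendsto (fun n => ((Fintype.card (V n) : ℝ) + -(k + 1)) / (2 * (k + 1)))
        atTop atTop := by
      refine Tendsto.atTop_div_const (by positivity) ?_
      exact tendsto_atTop_add_const_right _ _ (tendsto_natCast_atTop_atTop.comp hV)
    refine tendsto_atTop_mono' _ ?_ h1
    filter_upwards [hev] with n hn
    rw [div_le_iff₀ (by positivity)]
    have := (hlam n hn).1
    linarith
  · filter_upwards [hev] with n hn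
    obtain ⟨_, h2, h3⟩ := hlam n hn
    exact ⟨h2, h3, fun a => le_measure_deviates _ _ k _ h2.ge h3.ge a⟩

/-- Q1 of the problem, as a proposition (for the graphs on vertex sets in `Type`). -/
def Q1 : Prop :=
  ∀ (V : ℕ → Type) [∀ n, Fintype (V n)] [∀ n, MeasurableSpace (V n)]
    [∀ n, DiscreteMeasurableSpace (V n)] (G : ∀ n, SimpleGraph (V n)) (o : ∀ n, V n)
    (lam : ℕ → ℝ≥0), (∀ n, (G n).Connected) → (∀ n, VertexTransitive (G n)) →
    Tendsto (fun n => Fintype.card (V n)) atTop atTop → (∀ n, 0 < lam n) →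
    Tendsto (fun n => (lam n : ℝ) * Fintype.card (V n)) atTop atTop →
    ∀ ε : ℝ, 0 < ε → Tendsto (fun n => frogLaw (G n) (o n) (lam n)
      {ω | Deviates (susc ω) (expect (frogLaw (G n) (o n) (lam n)) susc).toReal ε}) atTop (𝓝 0)

/-- Q1 is false: apply the main theorem to the complete graphs. -/
theorem not_Q1 : ¬ Q1 := by
  intro h
  have hcard : Tendsto (fun n => Fintype.card (Fin (n + 1))) atTop atTop := by
    simpa using tendsto_add_atTop_nat 1
  obtain ⟨lam, h0, h1, -, h3⟩ := result (fun n => Fin (n + 1)) (fun n => ⊤) (fun n => 0)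
    (fun n => SimpleGraph.connected_top) hcard 1 le_rfl
  have h4 := h (fun n => Fin (n + 1)) (fun n => ⊤) (fun n => 0) lam
    (fun n => SimpleGraph.connected_top) (fun n => vertexTransitive_top _) hcard h0 h1
    (1 / (2 * (1 : ℕ) + 1)) (by norm_num)
  have h5 := h4.eventually_lt_const (u := 1 / 2) (by simp)
  obtain ⟨n, hn, hn'⟩ := (h3.and h5).exists
  exact absurd (hn.2.2 _) (not_le.mpr hn')

end Pool.Agent.Results.MP_4d31e4_pr.FrogSusceptibility
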