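import Mathlib
import Pool.Agent.MP4d31e4.Finite

open MeasureTheory ProbabilityTheory Filter Pool.Agent.MP4d31e4
open scoped ENNReal NNReal Topology

namespace Pool.Agent.Results.MP_4d31e4_pr.MultiWalkerCover

/-- **Main theorem (disproof of Q2, for every transitive sequence and at every level).**
Let `G n` be finite connected vertex-transitive graphs with `|V n| → ∞` and let `k ≥ 0`. There are
numbers of walkers `m n → ∞` such that `E[D] < ∞` for all `n`, and for all large `n` the cover
time `D` of `m n` walks is `≤ k` with probability at least `1/3` and `> k` with probability at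
least `1/3`; consequently for every real number `a`, in particular for `a = E[D]`, one has
`P(|D / a - 1| ≥ 1 / (2 k + 1)) ≥ 1 / 3`. -/
theorem result (V : ℕ → Type*) [∀ n, Fintype (V n)] [∀ n, MeasurableSpace (V n)]
    [∀ n, DiscreteMeasurableSpace (V n)] (G : ∀ n, SimpleGraph (V n))
    (hconn : ∀ n, (G n).Connected) (htrans : ∀ n, VertexTransitive (G n))
    (hV : Tendsto (fun n => Fintype.card (V n)) atTop atTop) (k : ℕ) :
    ∃ m : ℕ → ℕ, Tendsto m atTop atTop ∧
      (∀ n, expect (walkersLaw (G n) (m n)) coverTime < ⊤) ∧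
      ∀ᶠ n in atTop,
        1 / 3 ≤ walkersLaw (G n) (m n) {X | coverTime X ≤ k} ∧
        1 / 3 ≤ walkersLaw (G n) (m n) {X | (k : ℕ∞) < coverTime X} ∧
        ∀ a : ℝ, 1 / 3 ≤
          walkersLaw (G n) (m n) {X | Deviates (coverTime X) a (1 / (2 * k + 1))} := by
  have hne : ∀ n, Nonempty (V n) := fun n => (hconn n).nonempty
  have hex := fun n => exists_walkers (G n) (htrans n) k
  choose m h1 h2 h3 using hex
  have hmpos : ∀ n, 0 < m n := by
    intro n
    have hc : (0 : ℝ) < Fintype.card (V n) := by exact_mod_cast Fintype.card_pos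
    have := h1 n
    rcases Nat.eq_zero_or_pos (m n) with h0 | h0
    · rw [h0] at this
      simp only [Nat.cast_zero, mul_zero] at this
      linarith
    · exact h0
  refine ⟨m, ?_, fun n => expect_coverTime_lt_top (G n) (hconn n) (m n) (hmpos n), ?_⟩
  · have h4 : Tendsto (fun n => (Fintype.card (V n) : ℝ) / (2 * (k + 1))) atTop atTop :=
      (tendsto_natCast_atTop_atTop.comp hV).atTop_div_const (by positivity)
    rw [← tendsto_natCast_atTop_iff (R := ℝ)]
    refine tendsto_atTop_mono (fun n => ?_) h4
    rw [div_le_iff₀ (by positivity)]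
    have := h1 n
    linarith
  · filter_upwards [hV.eventually_ge_atTop (6 * (k + 1))] with n hn
    have hm := measurableSet_covered (V := V n) (m n) k
    have hset : {X : Fin (m n) → ℕ → V n | (k : ℕ∞) < coverTime X} =
        {X | Covered k X}ᶜ := by
      ext X
      simp only [Set.mem_ofPred_eq, Set.mem_compl_iff, ← coverTime_le_iff, not_le]
    have hle : walkersLaw (G n) (m n) {X | Covered k X} ≤ 2 / 3 := by
      have h5 := h3 n
      simp only [coverTime_le_iff] at h5
      refine h5.trans ?_
      have h6 : ((k + 1 : ℕ) : ℝ≥0∞) * (Fintype.card (V n) : ℝ≥0∞)⁻¹ ≤ 1 / 6 := by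
        have hc0 : (Fintype.card (V n) : ℝ≥0∞) ≠ 0 := by exact_mod_cast Fintype.card_ne_zero
        rw [← div_eq_mul_inv, ENNReal.div_le_iff hc0 (ENNReal.natCast_ne_top _)]
        have h7 : ((6 * (k + 1) : ℕ) : ℝ≥0∞) ≤ Fintype.card (V n) := by exact_mod_cast hn
        calc ((k + 1 : ℕ) : ℝ≥0∞) = 1 / 6 * ((6 * (k + 1) : ℕ) : ℝ≥0∞) := by
              rw [Nat.cast_mul, ← mul_assoc, one_div]
              rw [show ((6 : ℕ) : ℝ≥0∞) = 6 by norm_num,
                ENNReal.inv_mul_cancel (by norm_num) (by norm_num), one_mul]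
          _ ≤ _ := by gcongr
      calc (1 / 2 : ℝ≥0∞) + ((k + 1 : ℕ) : ℝ≥0∞) * (Fintype.card (V n) : ℝ≥0∞)⁻¹
          ≤ 1 / 2 + 1 / 6 := by gcongr
        _ = 2 / 3 := by
          rw [← ENNReal.toReal_eq_toReal_iff' (by finiteness) (by finiteness),
            ENNReal.toReal_add (by finiteness) (by finiteness)]
          norm_num
    have ha : 1 / 3 ≤ walkersLaw (G n) (m n) {X | coverTime X ≤ k} := by
      refine le_trans ?_ (h2 n)
      simp only [one_div]
      exact ENNReal.inv_le_inv.mpr (by norm_num)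
    have hb : 1 / 3 ≤ walkersLaw (G n) (m n) {X | (k : ℕ∞) < coverTime X} := by
      rw [hset, prob_compl_eq_one_sub hm]
      calc (1 / 3 : ℝ≥0∞) = 1 - 2 / 3 := by
            rw [← ENNReal.toReal_eq_toReal_iff' (by finiteness) (by finiteness),
              ENNReal.toReal_sub_of_le ?_ (by finiteness)]
            · norm_num
            · rw [ENNReal.div_le_iff (by norm_num) (by norm_num)]
              norm_num
        _ ≤ _ := tsub_le_tsub_left hle 1
    exact ⟨ha, hb, fun a => le_measure_deviates _ _ k _ ha hb a⟩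

/-- Q2 of the problem, as a proposition (for the graphs on vertex sets in `Type`). -/
def Q2 : Prop :=
  ∀ (V : ℕ → Type) [∀ n, Fintype (V n)] [∀ n, MeasurableSpace (V n)]
    [∀ n, DiscreteMeasurableSpace (V n)] (G : ∀ n, SimpleGraph (V n)) (m : ℕ → ℕ),
    (∀ n, (G n).Connected) → (∀ n, VertexTransitive (G n)) →
    Tendsto (fun n => Fintype.card (V n)) atTop atTop → Tendsto m atTop atTop →
    ∀ ε : ℝ, 0 < ε → Tendsto (fun n => walkersLaw (G n) (m n)
      {X | Deviates (coverTime X) (expect (walkersLaw (G n) (m n)) coverTime).toReal ε})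
      atTop (𝓝 0)

/-- Q2 is false: apply the main theorem to the complete graphs. -/
theorem not_Q2 : ¬ Q2 := by
  intro h
  have hcard : Tendsto (fun n => Fintype.card (Fin (n + 1))) atTop atTop := by
    simpa using tendsto_add_atTop_nat 1
  obtain ⟨m, h1, -, h3⟩ := result (fun n => Fin (n + 1)) (fun n => ⊤)
    (fun n => SimpleGraph.connected_top) (fun n => vertexTransitive_top _) hcard 0
  have h4 := h (fun n => Fin (n + 1)) (fun n => ⊤) m
    (fun n => SimpleGraph.connected_top) (fun n => vertexTransitive_top _) hcard h1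
    (1 / (2 * (0 : ℕ) + 1)) (by norm_num)
  have h5 := h4.eventually_lt_const (u := 1 / 3) (by simp)
  obtain ⟨n, hn, hn'⟩ := (h3.and h5).exists
  exact absurd (hn.2.2 _) (not_le.mpr hn')

end Pool.Agent.Results.MP_4d31e4_pr.MultiWalkerCover
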